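import Mathlib

/-!
A finite distributive lattice with an element `x` whose smallest cutsets have `9` elements while
no maximal antichain through `x` has `10` elements.

The lattice is `2 × 2 × ((3 × 2 × 2) + top)`, with `52` elements, and `x = (1, 1, (0, 1, 1))`.
-/

namespace Pool.Agent.Results.MP_d015b4_co.Counterexample

/-- `K` is a cutset for `x`: every element of `K` is incomparable to `x`, and `K ∪ {x}` meets
every maximal chain. -/
def IsCutsetFor {P : Type} [PartialOrder P] (x : P) (K : Set P) : Prop :=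
  (∀ k ∈ K, ¬ k ≤ x ∧ ¬ x ≤ k) ∧
    ∀ C : Set P, IsMaxChain (· ≤ ·) C → (C ∩ insert x K).Nonempty

section General

variable {α : Type} [PartialOrder α] [DecidableLE α]

/-- Boolean incomparability test. -/
def inc (a b : α) : Bool := !(decide (a ≤ b)) && !(decide (b ≤ a))

lemma inc_iff (a b : α) : inc a b = true ↔ ¬ a ≤ b ∧ ¬ b ≤ a := by
  simp [inc]

/-- Checks that every antichain of size `k` inside `rest` can be extended, together with
`chosen`, by an element of `all`. -/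
def chk (all : List α) : ℕ → List α → List α → ℕ → Bool
  | _, _, chosen, 0 => all.any (fun z => chosen.all (inc z))
  | 0, _, _, _ + 1 => false
  | _ + 1, [], _, _ + 1 => true
  | f + 1, a :: rest, chosen, k + 1 =>
      decide (rest.length < k) ||
        (chk all f rest chosen (k + 1) && chk all f (rest.filter (inc a)) (a :: chosen) k)

lemma chk_sound [DecidableEq α] (all : List α) :
    ∀ (f : ℕ) (rest chosen : List α) (k : ℕ), chk all f rest chosen k = true →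
      ∀ B : Finset α, (∀ b ∈ B, b ∈ rest) → B.card = k →
        (∀ a ∈ B, ∀ b ∈ B, a ≠ b → ¬ a ≤ b) →
        ∃ z, (∀ c ∈ chosen, inc z c = true) ∧ ∀ b ∈ B, inc z b = true := by
  intro f
  induction f with
  | zero =>
    intro rest chosen k h B _ hk _
    cases k with
    | zero =>
      simp only [chk, List.any_eq_true, List.all_eq_true] at h
      obtain ⟨z, _, hz⟩ := h
      rw [Finset.card_eq_zero] at hk
      subst hk
      exact ⟨z, hz, by simp⟩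
    | succ k => simp [chk] at h
  | succ f ih =>
    intro rest chosen k h B hB hk hA
    cases k with
    | zero =>
      simp only [chk, List.any_eq_true, List.all_eq_true] at h
      obtain ⟨z, _, hz⟩ := h
      rw [Finset.card_eq_zero] at hk
      subst hk
      exact ⟨z, hz, by simp⟩
    | succ k =>
      cases rest with
      | nil =>
        have : B.Nonempty := by rw [← Finset.card_pos]; omega
        obtain ⟨b, hb⟩ := this
        exact absurd (hB b hb) (by simp)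
      | cons a rest =>
        simp only [chk, Bool.or_eq_true, decide_eq_true_eq, Bool.and_eq_true] at h
        rcases h with h | ⟨h1, h2⟩
        · exfalso
          have hsub : B ⊆ (a :: rest).toFinset := fun b hb => List.mem_toFinset.2 (hB b hb)
          have h3 := Finset.card_le_card hsub
          have h4 := List.toFinset_card_le (a :: rest)
          simp only [List.length_cons] at h4
          omega
        · by_cases ha : a ∈ B
          · obtain ⟨z, hz1, hz2⟩ := ih _ _ _ h2 (B.erase a)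
              (by
                intro b hb
                rw [Finset.mem_erase] at hb
                have hb' := hB b hb.2
                rw [List.mem_cons] at hb'
                rw [List.mem_filter, inc_iff]
                exact ⟨hb'.resolve_left hb.1, hA a ha b hb.2 (Ne.symm hb.1), hA b hb.2 a ha hb.1⟩)
              (by rw [Finset.card_erase_of_mem ha]; omega)
              (fun c hc d hd => hA c (Finset.mem_of_mem_erase hc) d (Finset.mem_of_mem_erase hd))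
            refine ⟨z, fun c hc => hz1 c (List.mem_cons_of_mem _ hc), fun b hb => ?_⟩
            by_cases hba : b = a
            · subst hba
              exact hz1 _ List.mem_cons_self
            · exact hz2 b (Finset.mem_erase.2 ⟨hba, hb⟩)
          · refine ih _ _ _ h1 B (fun b hb => ?_) hk hA
            have hb' := hB b hb
            rw [List.mem_cons] at hb'
            exact hb'.resolve_left (fun h => ha (h ▸ hb))

omit [DecidableLE α] in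
/-- A set `S` meets every maximal chain of a finite bounded order as soon as some set `D`
contains the bottom, misses the top and can be left through a covering step only into `S`. -/
lemma meets_of_barrier [Finite α] [BoundedOrder α] (S D : Set α) (h0 : ⊥ ∈ D) (h1 : ⊤ ∉ D)
    (hstep : ∀ a ∈ D, ∀ b, b ∉ D → a < b → b ∈ S ∨ ∃ z, a < z ∧ z < b)
    (C : Set α) (hC : IsMaxChain (· ≤ ·) C) : (C ∩ S).Nonempty := by
  obtain ⟨b, ⟨hbC, hbD⟩, hbmin⟩ :=
    (wellFounded_lt (α := α)).has_min (C \ D) ⟨⊤, hC.top_mem, h1⟩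
  have hb0 : ⊥ < b := bot_lt_iff_ne_bot.2 (fun h => hbD (h ▸ h0))
  obtain ⟨a, ⟨haC, hab⟩, hamax⟩ :=
    (wellFounded_gt (α := α)).has_min {a | a ∈ C ∧ a < b} ⟨⊥, hC.bot_mem, hb0⟩
  have haD : a ∈ D := by
    by_contra h
    exact hbmin a ⟨haC, h⟩ hab
  rcases hstep a haD b hbD hab with h | ⟨z, haz, hzb⟩
  · exact ⟨b, hbC, h⟩
  · exfalso
    have hchain : IsChain (· ≤ ·) (insert z C) := by
      refine hC.isChain.insert (fun c hc _ => ?_)
      rcases hC.isChain.total hc hbC with hcb | hcb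
      · rcases hcb.lt_or_eq with hcb | hcb
        · rcases hC.isChain.total hc haC with hca | hca
          · exact Or.inr (hca.trans haz.le)
          · rcases hca.lt_or_eq with hca | hca
            · exact absurd hca (hamax c ⟨hc, hcb⟩)
            · exact Or.inr (hca ▸ haz.le)
        · exact Or.inl (hcb ▸ hzb.le)
      · exact Or.inl (hzb.le.trans hcb)
    have hz : z ∈ C := by
      rw [hC.2 hchain (Set.subset_insert z C)]
      exact Set.mem_insert z C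
    exact hamax z ⟨hz, hzb⟩ haz

omit [DecidableLE α] in
lemma isMaxChain_of_list (l : List α) (h1 : ∀ a ∈ l, ∀ b ∈ l, a ≤ b ∨ b ≤ a)
    (h2 : ∀ z, z ∈ l ∨ ∃ c ∈ l, ¬ z ≤ c ∧ ¬ c ≤ z) :
    IsMaxChain (· ≤ ·) {a | a ∈ l} := by
  refine ⟨fun a ha b hb _ => h1 a ha b hb, fun t ht hsub => ?_⟩
  refine Set.Subset.antisymm hsub (fun z hz => ?_)
  rcases h2 z with h | ⟨c, hc, h3, h4⟩
  · exact h
  · rcases ht.total hz (hsub hc) with h | h
    · exact absurd h h3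
    · exact absurd h h4

end General

/-- The product of chains `3 × 2 × 2`. -/
abbrev Q : Type := Fin 3 × Fin 2 × Fin 2

/-- The lattice `2 × 2 × ((3 × 2 × 2) + top)`. -/
abbrev L : Type := Fin 2 × Fin 2 × WithTop Q

/-- The element `x`. -/
def x0 : L := (1, 1, ↑((0, 1, 1) : Q))

def incs : List L := [
    (0, 0, ↑((1, 0, 0) : Q)), (0, 0, ↑((1, 1, 0) : Q)), (0, 0, ↑((1, 0, 1) : Q)),
    (1, 0, ↑((1, 0, 0) : Q)), (0, 1, ↑((1, 0, 0) : Q)), (0, 0, ↑((2, 0, 0) : Q)),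
    (0, 0, ↑((1, 1, 1) : Q)), (1, 0, ↑((1, 1, 0) : Q)), (1, 0, ↑((1, 0, 1) : Q)),
    (0, 1, ↑((1, 1, 0) : Q)), (0, 1, ↑((1, 0, 1) : Q)), (1, 1, ↑((1, 0, 0) : Q)),
    (0, 0, ↑((2, 1, 0) : Q)), (0, 0, ↑((2, 0, 1) : Q)), (1, 0, ↑((2, 0, 0) : Q)),
    (0, 1, ↑((2, 0, 0) : Q)), (1, 0, ↑((1, 1, 1) : Q)), (0, 1, ↑((1, 1, 1) : Q)),
    (1, 1, ↑((1, 1, 0) : Q)), (1, 1, ↑((1, 0, 1) : Q)), (0, 0, ↑((2, 1, 1) : Q)),
    (1, 0, ↑((2, 1, 0) : Q)), (1, 0, ↑((2, 0, 1) : Q)), (0, 1, ↑((2, 1, 0) : Q)),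
    (0, 1, ↑((2, 0, 1) : Q)), (1, 1, ↑((2, 0, 0) : Q)), (1, 0, ↑((2, 1, 1) : Q)),
    (0, 1, ↑((2, 1, 1) : Q)), (1, 1, ↑((2, 1, 0) : Q)), (1, 1, ↑((2, 0, 1) : Q)),
    (0, 0, ⊤), (1, 0, ⊤), (0, 1, ⊤)]

def cut : List L := [
    (1, 0, ↑((1, 1, 1) : Q)), (0, 1, ↑((1, 1, 1) : Q)), (1, 1, ↑((1, 1, 0) : Q)),
    (1, 1, ↑((1, 0, 1) : Q)), (0, 1, ↑((2, 1, 1) : Q)), (1, 1, ↑((2, 0, 1) : Q)),
    (1, 1, ↑((2, 1, 0) : Q)), (1, 0, ↑((2, 1, 1) : Q)), (0, 0, ⊤)]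

def low : List L := [
    (0, 0, ↑((0, 0, 0) : Q)), (0, 0, ↑((1, 0, 0) : Q)), (0, 0, ↑((0, 1, 0) : Q)),
    (0, 0, ↑((1, 1, 0) : Q)), (0, 0, ↑((0, 0, 1) : Q)), (0, 0, ↑((1, 0, 1) : Q)),
    (0, 0, ↑((0, 1, 1) : Q)), (0, 0, ↑((1, 1, 1) : Q)), (1, 0, ↑((0, 0, 0) : Q)),
    (1, 0, ↑((1, 0, 0) : Q)), (1, 0, ↑((0, 1, 0) : Q)), (1, 0, ↑((1, 1, 0) : Q)),
    (1, 0, ↑((0, 0, 1) : Q)), (1, 0, ↑((1, 0, 1) : Q)), (1, 0, ↑((0, 1, 1) : Q)),
    (0, 1, ↑((0, 0, 0) : Q)), (0, 1, ↑((1, 0, 0) : Q)), (0, 1, ↑((0, 1, 0) : Q)),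
    (0, 1, ↑((1, 1, 0) : Q)), (0, 1, ↑((0, 0, 1) : Q)), (0, 1, ↑((1, 0, 1) : Q)),
    (0, 1, ↑((0, 1, 1) : Q)), (1, 1, ↑((0, 0, 0) : Q)), (1, 1, ↑((1, 0, 0) : Q)),
    (1, 1, ↑((0, 1, 0) : Q)), (1, 1, ↑((0, 0, 1) : Q)), (0, 0, ↑((2, 0, 0) : Q)),
    (0, 0, ↑((2, 1, 0) : Q)), (0, 0, ↑((2, 0, 1) : Q)), (0, 0, ↑((2, 1, 1) : Q)),
    (1, 0, ↑((2, 0, 0) : Q)), (1, 0, ↑((2, 1, 0) : Q)), (1, 0, ↑((2, 0, 1) : Q)),
    (0, 1, ↑((2, 0, 0) : Q)), (0, 1, ↑((2, 1, 0) : Q)), (0, 1, ↑((2, 0, 1) : Q)),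
    (1, 1, ↑((2, 0, 0) : Q))]

def chains : Fin 9 → List L := ![
  [
    (0, 0, ↑((0, 0, 0) : Q)), (0, 0, ↑((0, 1, 0) : Q)), (0, 0, ↑((0, 1, 1) : Q)),
    (0, 0, ↑((1, 1, 1) : Q)), (0, 0, ↑((2, 1, 1) : Q)), (0, 0, ⊤),
    (1, 0, ⊤), (1, 1, ⊤)],
  [
    (0, 0, ↑((0, 0, 0) : Q)), (0, 0, ↑((0, 1, 0) : Q)), (1, 0, ↑((0, 1, 0) : Q)),
    (1, 0, ↑((1, 1, 0) : Q)), (1, 0, ↑((2, 1, 0) : Q)), (1, 1, ↑((2, 1, 0) : Q)),
    (1, 1, ↑((2, 1, 1) : Q)), (1, 1, ⊤)],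
  [
    (0, 0, ↑((0, 0, 0) : Q)), (0, 0, ↑((0, 0, 1) : Q)), (1, 0, ↑((0, 0, 1) : Q)),
    (1, 0, ↑((1, 0, 1) : Q)), (1, 0, ↑((2, 0, 1) : Q)), (1, 0, ↑((2, 1, 1) : Q)),
    (1, 1, ↑((2, 1, 1) : Q)), (1, 1, ⊤)],
  [
    (0, 0, ↑((0, 0, 0) : Q)), (0, 0, ↑((0, 1, 0) : Q)), (0, 0, ↑((0, 1, 1) : Q)),
    (1, 0, ↑((0, 1, 1) : Q)), (1, 0, ↑((1, 1, 1) : Q)), (1, 1, ↑((1, 1, 1) : Q)),
    (1, 1, ↑((2, 1, 1) : Q)), (1, 1, ⊤)],
  [
    (0, 0, ↑((0, 0, 0) : Q)), (0, 0, ↑((0, 1, 0) : Q)), (0, 1, ↑((0, 1, 0) : Q)),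
    (0, 1, ↑((1, 1, 0) : Q)), (0, 1, ↑((2, 1, 0) : Q)), (0, 1, ↑((2, 1, 1) : Q)),
    (1, 1, ↑((2, 1, 1) : Q)), (1, 1, ⊤)],
  [
    (0, 0, ↑((0, 0, 0) : Q)), (0, 0, ↑((0, 0, 1) : Q)), (0, 1, ↑((0, 0, 1) : Q)),
    (0, 1, ↑((1, 0, 1) : Q)), (0, 1, ↑((2, 0, 1) : Q)), (1, 1, ↑((2, 0, 1) : Q)),
    (1, 1, ↑((2, 1, 1) : Q)), (1, 1, ⊤)],
  [
    (0, 0, ↑((0, 0, 0) : Q)), (0, 0, ↑((0, 1, 0) : Q)), (0, 0, ↑((0, 1, 1) : Q)),
    (0, 1, ↑((0, 1, 1) : Q)), (0, 1, ↑((1, 1, 1) : Q)), (1, 1, ↑((1, 1, 1) : Q)),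
    (1, 1, ↑((2, 1, 1) : Q)), (1, 1, ⊤)],
  [
    (0, 0, ↑((0, 0, 0) : Q)), (0, 0, ↑((0, 1, 0) : Q)), (1, 0, ↑((0, 1, 0) : Q)),
    (1, 1, ↑((0, 1, 0) : Q)), (1, 1, ↑((1, 1, 0) : Q)), (1, 1, ↑((1, 1, 1) : Q)),
    (1, 1, ↑((2, 1, 1) : Q)), (1, 1, ⊤)],
  [
    (0, 0, ↑((0, 0, 0) : Q)), (0, 0, ↑((0, 0, 1) : Q)), (1, 0, ↑((0, 0, 1) : Q)),
    (1, 1, ↑((0, 0, 1) : Q)), (1, 1, ↑((1, 0, 1) : Q)), (1, 1, ↑((1, 1, 1) : Q)),
    (1, 1, ↑((2, 1, 1) : Q)), (1, 1, ⊤)]]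

lemma incs_spec : ∀ a : L, ¬ a ≤ x0 → ¬ x0 ≤ a → a ∈ incs := by decide +kernel

lemma chk_true : chk incs 40 incs [x0] 9 = true := by decide +kernel

lemma cut_inc : ∀ k ∈ cut, ¬ k ≤ x0 ∧ ¬ x0 ≤ k := by decide +kernel

lemma cut_card : cut.toFinset.card = 9 := by decide +kernel

set_option synthInstance.maxSize 100000 in
lemma low_step : ∀ a ∈ low, ∀ b : L, b ∉ low → a ≤ b →
    (b = x0 ∨ b ∈ cut) ∨ ∃ z : L, (a ≤ z ∧ a ≠ z) ∧ (z ≤ b ∧ z ≠ b) := by decide +kernel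

lemma low_bot : (⊥ : L) ∈ low := by decide +kernel

lemma low_top : (⊤ : L) ∉ low := by decide +kernel

lemma chains_chain : ∀ i, ∀ a ∈ chains i, ∀ b ∈ chains i, a ≤ b ∨ b ≤ a := by decide +kernel

set_option synthInstance.maxSize 100000 in
lemma chains_max : ∀ i, ∀ z : L, z ∈ chains i ∨ ∃ c ∈ chains i, ¬ z ≤ c ∧ ¬ c ≤ z := by
  decide +kernel

lemma chains_avoid : ∀ i, x0 ∉ chains i := by decide +kernel

set_option synthInstance.maxSize 100000 in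
lemma chains_disj : ∀ i j, ∀ a ∈ chains i, a ∈ chains j → i = j ∨ a ≤ x0 ∨ x0 ≤ a := by
  decide +kernel

lemma cut_isCutsetFor : IsCutsetFor x0 (↑cut.toFinset : Set L) := by
  refine ⟨fun k hk => cut_inc k (by simpa using hk), fun C hC => ?_⟩
  refine meets_of_barrier _ {a | a ∈ low} low_bot low_top (fun a ha b hb hab => ?_) C hC
  rcases low_step a ha b hb hab.le with h | ⟨z, ⟨h1, h2⟩, h3, h4⟩
  · left
    simpa using h
  · exact Or.inr ⟨z, lt_of_le_of_ne h1 h2, lt_of_le_of_ne h3 h4⟩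

lemma nine_le (K : Set L) (hK : IsCutsetFor x0 K) : ((9 : ℕ) : ℕ∞) ≤ K.encard := by
  have h : ∀ i : Fin 9, ∃ k ∈ K, k ∈ chains i := by
    intro i
    obtain ⟨k, hk1, hk2⟩ := hK.2 _ (isMaxChain_of_list _ (chains_chain i) (chains_max i))
    rcases hk2 with hk2 | hk2
    · exact absurd (hk2 ▸ hk1) (chains_avoid i)
    · exact ⟨k, hk2, hk1⟩
  choose g hg1 hg2 using h
  have hinj : Function.Injective g := by
    intro i j hij
    rcases chains_disj i j (g i) (hg2 i) (hij ▸ hg2 j) with h | h | h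
    · exact h
    · exact absurd h (hK.1 _ (hg1 i)).1
    · exact absurd h (hK.1 _ (hg1 i)).2
  have h1 : (Set.range g).encard ≤ K.encard :=
    Set.encard_le_encard (by rintro _ ⟨i, rfl⟩; exact hg1 i)
  rw [← Set.image_univ, hinj.encard_image, Set.encard_univ] at h1
  simpa using h1

lemma no_ten (A : Set L) (hA : IsMaxAntichain (· ≤ ·) A) (hx : x0 ∈ A) :
    A.encard ≠ ((9 : ℕ) : ℕ∞) + 1 := by
  intro h
  classical
  have hfin : A.Finite := Set.toFinite A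
  have hcard : hfin.toFinset.card = 10 := by
    rw [hfin.encard_eq_coe_toFinset_card] at h
    exact_mod_cast h
  have hx' : x0 ∈ hfin.toFinset := hfin.mem_toFinset.2 hx
  obtain ⟨z, hz1, hz2⟩ := chk_sound incs 40 incs [x0] 9 chk_true (hfin.toFinset.erase x0)
    (by
      intro b hb
      rw [Finset.mem_erase, Set.Finite.mem_toFinset] at hb
      exact incs_spec b (hA.1 hb.2 hx hb.1) (hA.1 hx hb.2 (Ne.symm hb.1)))
    (by rw [Finset.card_erase_of_mem hx', hcard])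
    (by
      intro a ha b hb hab
      rw [Finset.mem_erase, Set.Finite.mem_toFinset] at ha hb
      exact hA.1 ha.2 hb.2 hab)
  have hz : ∀ a ∈ A, ¬ z ≤ a ∧ ¬ a ≤ z := by
    intro a ha
    by_cases hax : a = x0
    · subst hax
      exact (inc_iff _ _).1 (hz1 _ List.mem_cons_self)
    · exact (inc_iff _ _).1 (hz2 a (Finset.mem_erase.2 ⟨hax, hfin.mem_toFinset.2 ha⟩))
  have hanti : IsAntichain (· ≤ ·) (insert z A) :=
    hA.1.insert (fun b hb _ => (hz b hb).2) (fun b hb _ => (hz b hb).1)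
  have hzA : z ∈ A := by
    rw [hA.2 hanti (Set.subset_insert z A)]
    exact Set.mem_insert z A
  exact (hz z hzA).1 le_rfl

/-- There are a finite distributive lattice `L`, an element `x` and a number `m` such that the
least size of a cutset for `x` is `m`, and no maximal antichain containing `x` has `m + 1`
elements. -/
theorem result :
    ∃ (L : Type) (_ : DistribLattice L) (_ : Finite L) (x : L) (m : ℕ),
      IsLeast {n : ℕ∞ | ∃ K : Set L, IsCutsetFor x K ∧ K.encard = n} (m : ℕ∞) ∧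
        ∀ A : Set L, IsMaxAntichain (· ≤ ·) A → x ∈ A → A.encard ≠ (m : ℕ∞) + 1 := by
  refine ⟨L, inferInstance, inferInstance, x0, 9, ⟨⟨_, cut_isCutsetFor, ?_⟩, ?_⟩, no_ten⟩
  · rw [Set.encard_coe_eq_coe_finsetCard, cut_card]
  · rintro n ⟨K, hK, rfl⟩
    exact nine_le K hK

end Pool.Agent.Results.MP_d015b4_co.Counterexample
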